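import Pool.Agent.H94.G6.M126
import Pool.Agent.H94.G6.M137

/-!
# SY EiP: the metric on a smooth projective surface of general type
-/

set_option autoImplicit false

open Topology Filter Metric MvPolynomial

noncomputable section

namespace Pool.Agent.SY

open Pool.Agent.H36.BP (EN fs wd Sub)
open Pool.Agent.H17BP (Pr Surface IsForm NoZeros Eqs IsChart)
open Pool.Agent.H14.KB (rhoS)
open Pool.Agent.H62.FC (Homog)
open Pool.Agent.H17LG.Variety (FunField)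
open Pool.Agent.H13.SM (conTan cone)
open Pool.Agent.H17EF (coneE GT LE)

variable {N : ℕ} {P : Ideal (MvPolynomial (Fin (N + 1)) ℂ)}

/-- the model -/
private theorem EiP_model [hPp : P.IsPrime] {z : Fin 2 → FunField P} (hP : Homog P) (hz : IsTranscendenceBasis ℂ z)
    (hsm : ∀ y : Fin (N + 1) → ℂ, y ≠ 0 → (∀ Q ∈ P, eval y Q = 0) → Module.finrank ℂ (conTan P y) ≤ 3) (hgt : GT P 2)
    {R : MvPolynomial (Fin (N + 1)) ℂ} {d : ℕ} (hR : R.IsHomogeneous d) (hRP : R ∉ P) :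
    ∃ (m : ℕ) (Om : (Fin (N + 1) → ℂ) → (Fin (N + 1) → ℂ) → (Fin (N + 1) → ℂ) → ℂ) (Q : MvPolynomial (Fin (N + 1)) ℂ) (D : ℕ),
      Q.IsHomogeneous D ∧ Q ∉ P ∧ (∀ x : Fin (N + 1) → ℂ, eval x R = 0 → eval x Q = 0) ∧
      ModelS (cone P) {x | x ∈ cone P ∧ eval x Q = 0} m 1 Om (fun (_ : Unit) x => eval x Q) D := by
  have hS : Surface (cone P) := Pool.Agent.H13.SM.surface_cone hP hz fun y hy => hsm y hy.1 hy.2
  have hLGT : Pool.Agent.H62.FC.LogGeneralType P ∅ 2 := by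
    have h1 : (Pool.Agent.H62.FC.OnBoundary P ∅ (w := 2)) = fun _ => False := by
      funext E
      apply propext
      constructor
      · rintro ⟨j, -, -, i, hi, -⟩
        exact absurd hi (Finset.notMem_empty i)
      · exact False.elim
    unfold Pool.Agent.H62.FC.LogGeneralType
    rw [h1]
    exact hgt
  obtain ⟨M, Om, D₀, Q₀, hM, hQ₀, hQ₀P, hOm, hnz⟩ := Pool.Agent.H68.KR.exists_form_of_smooth hP hz (fun y hy hyP => hsm y hy hyP) hLGT
  -- a coordinate which does not vanish on the surface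
  obtain ⟨l, hlP⟩ : ∃ l, (X l : MvPolynomial (Fin (N + 1)) ℂ) ∉ P := by
    obtain ⟨l, hl⟩ := Pool.Agent.H92.GT.Proj.exists_coordFun_ne_zero P z hz
    exact ⟨l, Pool.Agent.H17R.coordFun_ne_zero_iff.1 hl⟩
  set Q : MvPolynomial (Fin (N + 1)) ℂ := Q₀ * R * X l with hQdef
  have hQhom : Q.IsHomogeneous (D₀ + d + 1) := (hQ₀.mul hR).mul (isHomogeneous_X ℂ l)
  have hQP : Q ∉ P := by
    intro h
    rcases hPp.mem_or_mem h with h | h
    · rcases hPp.mem_or_mem h with h | h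
      · exact hQ₀P h
      · exact hRP h
    · exact hlP h
  refine ⟨M, Om, Q, D₀ + d + 1, hQhom, hQP, ?_, ⟨hS, hM, le_rfl, hOm, ?_, ⟨by omega, ?_, ?_, ?_, ?_⟩, ?_⟩⟩
  · intro x hx
    rw [hQdef, map_mul, map_mul, hx, mul_zero, zero_mul]
  · intro x hx hxB v hv w hw hi
    refine hnz x hx (fun h => hxB ⟨hx, ?_⟩) v hv w hw hi
    rw [hQdef, map_mul, map_mul, h.2, zero_mul, zero_mul]
  · intro _ x
    have h : ∀ i : Fin (N + 1), AnalyticAt ℂ (fun y : Fin (N + 1) → ℂ => y i) x := fun i =>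
      (ContinuousLinearMap.proj (R := ℂ) (φ := fun _ : Fin (N + 1) => ℂ) i).analyticAt x
    have := AnalyticAt.aeval_mvPolynomial (𝕜 := ℂ) h Q
    simpa [MvPolynomial.aeval_eq_eval] using this
  · intro _ c x
    exact Pool.Agent.H17BP.eval_smul_form hQhom c x
  · intro x
    exact ⟨fun h => ⟨h.1, fun _ => h.2⟩, fun h => ⟨h.1, h.2 ()⟩⟩
  · intro x hx
    exact ⟨(), Eventually.of_forall fun y hy h => ⟨hy, h⟩⟩
  · intro σ τ h
    exact (Pool.Agent.H13.SM.frequently_ne_zero hP hz (fun y hy => hsm y hy.1 hy.2) h hQhom hQP).mono fun p hp hpB => hp hpB.2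

/-- the Euclidean norm is at most a multiple of the norm of the supremum -/
private theorem EiP_norm (x : EN N) : ‖x‖ ≤ ‖((LE N : (Fin (N + 1) → ℂ) ≃L[ℂ] EN N) : (Fin (N + 1) → ℂ) →L[ℂ] EN N)‖ * ‖(LE N).symm x‖ := by
  have h := ((LE N : (Fin (N + 1) → ℂ) ≃L[ℂ] EN N) : (Fin (N + 1) → ℂ) →L[ℂ] EN N).le_opNorm ((LE N).symm x)
  simpa using h

private theorem EiP_norm' (x : EN N) : ‖(LE N).symm x‖ ≤ ‖x‖ := by
  rw [pi_norm_le_iff_of_nonneg (norm_nonneg _)]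
  intro i
  exact PiLp.norm_apply_le x i

private theorem EiP_sub_mono {u : ℂ → ℝ} {z : ℂ} {c c' : ℝ} (h : Sub u z c) (hc : c' ≤ c) : Sub u z c' :=
  ⟨h.1, fun t ht => h.2 t (lt_of_lt_of_le ht hc)⟩

/-- MODULE EiP: the metric on a smooth projective surface of general type -/
theorem energy_surface [P.IsPrime] {z : Fin 2 → FunField P} (hP : Homog P) (hz : IsTranscendenceBasis ℂ z)
    (hsm : ∀ y : Fin (N + 1) → ℂ, y ≠ 0 → (∀ Q ∈ P, eval y Q = 0) → Module.finrank ℂ (conTan P y) ≤ 3) (hgt : GT P 2)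
    {R : MvPolynomial (Fin (N + 1)) ℂ} {d : ℕ} (hR : R.IsHomogeneous d) (hRP : R ∉ P) :
    ∃ (Q : MvPolynomial (Fin (N + 1)) ℂ) (D M : ℕ) (c₀ C : ℝ) (g : (ℂ → EN N) → ℂ → ℝ), Q.IsHomogeneous D ∧ Q ∉ P ∧
      (∀ x : EN N, eval x.ofLp R = 0 → eval x.ofLp Q = 0) ∧ 1 ≤ M ∧
      Energy (coneE P) {x | x ∈ coneE P ∧ eval x.ofLp Q = 0} (fun x => ‖x‖) (fun x => ‖eval x.ofLp Q‖ / ‖x‖ ^ D) M c₀ C g := by
  obtain ⟨m, Om, Q, D, hQ, hQP, hRQ, hmod⟩ := EiP_model hP hz hsm hgt hR hRP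
  obtain ⟨M, c₀, C, g₀, hM, E⟩ := energy_of_model hmod (LE N)
  set L := LE N with hL
  set K : ℝ := max 1 ‖(L : (Fin (N + 1) → ℂ) →L[ℂ] EN N)‖ with hK
  have hK1 : 1 ≤ K := le_max_left _ _
  have hKL : ‖(L : (Fin (N + 1) → ℂ) →L[ℂ] EN N)‖ ≤ K := le_max_right _ _
  have hC := E.C_pos
  set T₀ : Set (Fin (N + 1) → ℂ) := {x | x ∈ cone P ∧ eval x Q = 0} with hT₀
  set T : Set (EN N) := {x | x ∈ coneE P ∧ eval x.ofLp Q = 0} with hT
  have hTT : ∀ x : EN N, x ∈ T ↔ L.symm x ∈ T₀ := fun x => Iff.rfl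
  have hXX : ∀ x : EN N, x ∈ coneE P ↔ L.symm x ∈ cone P := fun x => Iff.rfl
  have hent : ∀ F : ℂ → EN N, Ent (coneE P) T F → Ent (cone P) T₀ (fun w => L.symm (F w)) := by
    intro F hF
    refine ⟨L.symm.differentiable.comp hF.diff, fun z => (hXX _).1 (hF.mem z), ?_⟩
    obtain ⟨z, hz⟩ := hF.out
    exact ⟨z, fun h => hz ((hTT _).2 h)⟩
  refine ⟨Q, D, M, c₀, K * C, fun F z => g₀ (fun w => L.symm (F w)) z, hQ, hQP, fun x hx => hRQ _ hx, hM, ?_⟩
  have hCK : C ≤ K * C := by nlinarith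
  refine ⟨E.c₀_pos, by positivity, ?_, ?_, ?_, ?_, ?_, ?_, ?_⟩
  · intro F hF z
    exact E.nonneg _ (hent F hF) z
  · intro F hF z a ha
    exact E.usc _ (hent F hF) z a ha
  · intro F hF a b ha z
    exact E.aff _ (hent F hF) a b ha z
  · intro F hF h hh h0 z
    have h1 := E.unit _ (hent F hF) h hh h0 z
    rw [← h1]
    show g₀ (fun w => L.symm (h w • F w)) z = g₀ (fun w => h w • L.symm (F w)) z
    simp only [map_smul]
  · intro F hF z hz
    have h1 := E.sub _ (hent F hF) z hz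
    have h2 : (fun w => g₀ (fun w => L.symm (F w)) w * ‖L (L.symm (F w))‖ ^ (-c₀)) =
        fun w => g₀ (fun w => L.symm (F w)) w * ‖F w‖ ^ (-c₀) := by
      funext w
      rw [ContinuousLinearEquiv.apply_symm_apply]
    have h3 : Sub (fun w => g₀ (fun w => L.symm (F w)) w * ‖L (L.symm (F w))‖ ^ (-c₀)) z
        (-(C * g₀ (fun w => L.symm (F w)) z ^ 2)) := h1
    rw [h2] at h3
    refine EiP_sub_mono h3 ?_
    have h4 := mul_le_mul_of_nonneg_right hCK (sq_nonneg (g₀ (fun w => L.symm (F w)) z))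
    linarith
  · intro F hF z
    obtain ⟨a, ha⟩ := E.lower _ (hent F hF) z
    refine ⟨a, ?_⟩
    have hd : deriv (fun w => L.symm (F w)) z = L.symm (deriv F z) := by
      exact (((L.symm : EN N →L[ℂ] (Fin (N + 1) → ℂ)).hasFDerivAt).comp_hasDerivAt z (hF.diff z).hasDerivAt).deriv
    rw [hd] at ha
    have hF0 : F z ≠ 0 := by
      intro h
      have := (hXX _).1 (hF.mem z)
      exact this.1 (by rw [h, map_zero])
    have hL0 : L.symm (F z) ≠ 0 := fun h => hF0 (by simpa using h)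
    have hn1 : 0 < ‖F z‖ := norm_pos_iff.2 hF0
    have hn2 : 0 < ‖L.symm (F z)‖ := norm_pos_iff.2 hL0
    have hn3 : ‖L.symm (F z)‖ ≤ ‖F z‖ := EiP_norm' (F z)
    -- the two distances
    have hρ : ‖eval (F z).ofLp Q‖ / ‖F z‖ ^ D ≤ rhoS (fun (_ : Unit) x => eval x Q) D (L.symm (F z)) := by
      unfold rhoS
      have h1 : ‖fun (_ : Unit) => eval (L.symm (F z)) Q‖ = ‖eval (F z).ofLp Q‖ := by
        rw [pi_norm_const]
        rfl
      rw [h1]
      gcongr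
    have hρ0 : 0 ≤ ‖eval (F z).ofLp Q‖ / ‖F z‖ ^ D := by positivity
    have hρ1 : 0 ≤ rhoS (fun (_ : Unit) x => eval x Q) D (L.symm (F z)) := Pool.Agent.H14.KB.rhoS_nonneg _ _ _
    have hρ2 : 0 ≤ rhoS (fun (_ : Unit) x => eval x Q) D (L.symm (F z)) ^ M := pow_nonneg hρ1 M
    have hv : ‖deriv F z - a • F z‖ ≤ K * ‖L.symm (deriv F z) - a • L.symm (F z)‖ := by
      have h1 := EiP_norm (deriv F z - a • F z)
      rw [map_sub, map_smul] at h1
      exact h1.trans (mul_le_mul_of_nonneg_right hKL (norm_nonneg _))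
    have hg : 0 ≤ g₀ (fun w => L.symm (F w)) z := E.nonneg _ (hent F hF) z
    calc (‖eval (F z).ofLp Q‖ / ‖F z‖ ^ D) ^ M * ‖deriv F z - a • F z‖
        ≤ (rhoS (fun (_ : Unit) x => eval x Q) D (L.symm (F z))) ^ M * (K * ‖L.symm (deriv F z) - a • L.symm (F z)‖) := by
          gcongr
      _ = K * ((rhoS (fun (_ : Unit) x => eval x Q) D (L.symm (F z))) ^ M * ‖L.symm (deriv F z) - a • L.symm (F z)‖) := by ring
      _ ≤ K * (C * ‖L.symm (F z)‖ * g₀ (fun w => L.symm (F w)) z) := by gcongr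
      _ ≤ K * (C * ‖F z‖ * g₀ (fun w => L.symm (F w)) z) := by gcongr
      _ = K * C * ‖F z‖ * g₀ (fun w => L.symm (F w)) z := by ring
  · intro l hl r A ε hr hε F H hF hA hB hc hH
    obtain ⟨h, hh, hlim⟩ := hc
    have h1 := E.lim l hl r A ε hr hε (fun n w => L.symm (F n w)) (fun w => L.symm (H w)) (hF.mono fun n hn => hent _ hn) hA hB
      ⟨h, hh, ?_⟩ (fun z hz => (hXX _).1 (hH z hz))
    · obtain ⟨⟨z, hz, hzT⟩, y, hy, w, hw, hyw⟩ := h1
      refine ⟨⟨z, hz, fun h => hzT ((hTT _).1 h)⟩, y, hy, w, hw, ?_⟩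
      rintro ⟨c, hc0, hc⟩
      refine hyw ⟨c, hc0, ?_⟩
      show L.symm (H y) = c • L.symm (H w)
      rw [hc, map_smul]
    · have h2 : (fun (n : ℕ) (z : ℂ) => h n z • L.symm (F n z)) = fun n z => L.symm (h n z • F n z) := by
        funext n z
        exact (map_smul L.symm _ _).symm
      show TendstoLocallyUniformlyOn (fun (n : ℕ) (z : ℂ) => h n z • L.symm (F n z)) (fun w => L.symm (H w)) l (ball 0 r)
      rw [h2]
      exact (L.symm : EN N →L[ℂ] (Fin (N + 1) → ℂ)).uniformContinuous.comp_tendstoLocallyUniformlyOn hlim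

end Pool.Agent.SY
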